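import Pool.Agent.L0h75.H1.C

/-!
# H1-P5: the two places above two
-/

set_option autoImplicit false
set_option linter.unusedSectionVars false

namespace Pool.Agent.L0h19.H1

open Pool.Agent.R384 Pool.Agent.L0h75.H1
open Pool.Agent.Y715.Red Pool.Agent.Y715.Nr Pool.Agent.W237.RK
open Pool.Agent.Y715.Gi (QB KK GK i₀_mem gk_fix)
open Pool.Agent.Y715.Df (Cmp exists_cmp)
open Pool.Agent.Y715.Lc (norm_two_odd)

open scoped Classical

/-! ### Reduction modulo eight -/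

/-- reduction modulo eight -/
noncomputable def t8 : ℤ_[2] →+* ZMod 8 := (PadicInt.toZModPow 3 : ℤ_[2] →+* ZMod (2 ^ 3))

lemma t8_zero (z : ℤ_[2]) : (8 : ℤ_[2]) ∣ z ↔ t8 z = 0 := by
  have h1 : t8 z = 0 ↔ z ∈ RingHom.ker (PadicInt.toZModPow (p := 2) 3) := Iff.rfl
  rw [h1, PadicInt.ker_toZModPow, Ideal.mem_span_singleton]
  have e : ((2 : ℕ) : ℤ_[2]) ^ 3 = 8 := by norm_num
  rw [e]

lemma t8_four (z : ℤ_[2]) : (4 : ℤ_[2]) ∣ z ↔ 2 * t8 z = 0 := by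
  have h1 : 2 * t8 z = t8 (2 * z) := by rw [map_mul, map_ofNat]
  rw [h1, ← t8_zero]
  constructor
  · rintro ⟨c, rfl⟩
    exact ⟨c, by ring⟩
  · rintro ⟨c, hc⟩
    refine ⟨c, ?_⟩
    have h2 : (2 : ℤ_[2]) ≠ 0 := two_ne_zero
    apply mul_left_cancel₀ h2
    rw [hc]
    ring

lemma t8_norm (z : ℤ_[2]) : t8 z = 0 ↔ ‖(z : ℚ_[2])‖ ≤ 1 / 8 := by
  rw [← t8_zero]
  have h1 := PadicInt.norm_le_pow_iff_mem_span_pow (p := 2) z 3
  rw [Ideal.mem_span_singleton] at h1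
  have e : ((2 : ℕ) : ℤ_[2]) ^ 3 = 8 := by norm_num
  rw [e] at h1
  rw [← h1, PadicInt.padic_norm_e_of_padicInt]
  norm_num

lemma t8_unit (u : ℤ_[2]ˣ) : t8 u = 1 ∨ t8 u = 3 ∨ t8 u = 5 ∨ t8 u = 7 := by
  have h : IsUnit (t8 (u : ℤ_[2])) := u.isUnit.map _
  revert h
  generalize t8 (u : ℤ_[2]) = a
  revert a
  decide

lemma t8_sq (u : ℤ_[2]ˣ) : t8 ((u ^ 2 : ℤ_[2]ˣ) : ℤ_[2]) = 1 := by
  rw [Units.val_pow_eq_pow_val, map_pow]
  rcases t8_unit u with h | h | h | h <;> rw [h] <;> decide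

lemma t8_even (u : ℤ_[2]ˣ) (k : ℤ) : t8 ((u ^ (2 * k) : ℤ_[2]ˣ) : ℤ_[2]) = 1 := by
  have h1 : Units.map t8.toMonoidHom (u ^ 2) = 1 := by
    apply Units.ext
    exact t8_sq u
  have h2 : Units.map t8.toMonoidHom (u ^ (2 * k)) = 1 := by
    rw [zpow_mul, map_zpow, show u ^ (2 : ℤ) = u ^ 2 by norm_cast, h1, one_zpow]
  have h3 := congrArg Units.val h2
  exact h3

lemma t8_ph (u : ℤ_[2]ˣ) : (ph u = 1 → t8 u = 1 ∨ t8 u = 5) ∧ (ph u = -1 → t8 u = 3 ∨ t8 u = 7) := by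
  constructor
  · intro h
    rw [ph_one, t8_four, map_sub, map_one] at h
    rcases t8_unit u with h1 | h1 | h1 | h1
    · exact Or.inl h1
    · rw [h1] at h; exact absurd h (by decide)
    · exact Or.inr h1
    · rw [h1] at h; exact absurd h (by decide)
  · intro h
    rw [ph_neg, t8_four, map_add, map_one] at h
    rcases t8_unit u with h1 | h1 | h1 | h1
    · rw [h1] at h; exact absurd h (by decide)
    · exact Or.inl h1
    · rw [h1] at h; exact absurd h (by decide)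
    · exact Or.inr h1

lemma t8_pm (u : ℤ_[2]ˣ) : ((8 : ℤ_[2]) ∣ (u : ℤ_[2]) - 1 ∨ (8 : ℤ_[2]) ∣ (u : ℤ_[2]) + 1) ↔
    t8 u = 1 ∨ t8 u = 7 := by
  rw [t8_zero, t8_zero, map_sub, map_add, map_one]
  rcases t8_unit u with h1 | h1 | h1 | h1 <;> rw [h1] <;> decide

/-- the norm of `u - 1` -/
lemma norm_five {u : ℤ_[2]ˣ} (h : t8 u = 5) : ‖((u : ℤ_[2]) : ℚ_[2]) - 1‖ = 1 / 4 := by
  have h1 : ‖(((u : ℤ_[2]) - 5 : ℤ_[2]) : ℚ_[2])‖ ≤ 1 / 8 := by
    rw [← t8_norm, map_sub, h, map_ofNat, sub_self]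
  have h2 : ‖(4 : ℚ_[2])‖ = 1 / 4 := by
    have e : (4 : ℚ_[2]) = 2 ^ 2 := by norm_num
    rw [e, norm_pow, Pool.Agent.R384.norm_two']
    norm_num
  have e : ((u : ℤ_[2]) : ℚ_[2]) - 1 = 4 + (((u : ℤ_[2]) - 5 : ℤ_[2]) : ℚ_[2]) := by
    have h5 : ((5 : ℤ_[2]) : ℚ_[2]) = 5 := map_ofNat PadicInt.Coe.ringHom 5
    rw [PadicInt.coe_sub, h5]
    ring
  have h3 : ‖(((u : ℤ_[2]) - 5 : ℤ_[2]) : ℚ_[2])‖ < ‖(4 : ℚ_[2])‖ := by rw [h2]; linarith
  rw [e, Padic.add_eq_max_of_ne (ne_of_gt h3), max_eq_left h3.le, h2]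

lemma norm_one_le {u : ℤ_[2]ˣ} (h : t8 u = 1) : ‖((u : ℤ_[2]) : ℚ_[2]) - 1‖ ≤ 1 / 8 := by
  have h1 : ‖(((u : ℤ_[2]) - 1 : ℤ_[2]) : ℚ_[2])‖ ≤ 1 / 8 := by
    rw [← t8_norm, map_sub, h, map_one, sub_self]
  have e : ((u : ℤ_[2]) : ℚ_[2]) - 1 = (((u : ℤ_[2]) - 1 : ℤ_[2]) : ℚ_[2]) := by
    push_cast
    rfl
  rw [e]
  exact h1

/-! ### Square roots -/

lemma hens (a : ℤ_[2]) (h : ‖a - 1‖ ≤ 1 / 8) : ∃ z : ℤ_[2], z ^ 2 = a := by
  have e2 : ‖(2 : ℤ_[2])‖ = 1 / 2 := by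
    have := PadicInt.norm_p (p := 2)
    simpa using this
  obtain ⟨z, hz, -⟩ := hensels_lemma (p := 2) (F := (Polynomial.X ^ 2 - Polynomial.C a :
    Polynomial ℤ_[2])) (a := 1) (by
    have e1 : (Polynomial.aeval (1 : ℤ_[2])) (Polynomial.X ^ 2 - Polynomial.C a :
        Polynomial ℤ_[2]) = -(a - 1) := by simp
    have e3 : (Polynomial.aeval (1 : ℤ_[2])) (Polynomial.derivative (Polynomial.X ^ 2 -
        Polynomial.C a : Polynomial ℤ_[2])) = 2 := by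
      simp
      norm_num
    rw [e1, e3, norm_neg, e2]
    refine lt_of_le_of_lt h (by norm_num))
  refine ⟨z, ?_⟩
  have e4 : (Polynomial.aeval z) (Polynomial.X ^ 2 - Polynomial.C a : Polynomial ℤ_[2]) =
      z ^ 2 - a := by simp
  rw [e4] at hz
  exact sub_eq_zero.1 hz

/-- units congruent to one modulo eight are squares -/
lemma sqrt_fix {x : PadicAlgCl 2} (hx : ∀ τ : Au 2, τ x = x) (h : ‖x - 1‖ ≤ 1 / 8) :
    ∃ y : PadicAlgCl 2, y ^ 2 = x ∧ ∀ τ : Au 2, τ y = y := by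
  obtain ⟨a, rfl⟩ := fix_mem hx
  have h1 : ‖a - 1‖ ≤ 1 / 8 := by
    have h2 := PadicAlgCl.norm_extends 2 (a - 1)
    rw [← h2]
    have e : ((a - 1 : ℚ_[2]) : PadicAlgCl 2) = algebraMap ℚ_[2] (PadicAlgCl 2) a - 1 := by
      show algebraMap ℚ_[2] (PadicAlgCl 2) (a - 1) = _
      rw [map_sub, map_one]
    rw [e]
    exact h
  have h3 : ‖a‖ ≤ 1 := by
    have e : a = 1 + (a - 1) := by ring
    rw [e]
    exact add_le' (by rw [norm_one]) (by linarith)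
  obtain ⟨a', rfl⟩ : ∃ a' : ℤ_[2], (a' : ℚ_[2]) = a := ⟨⟨a, h3⟩, rfl⟩
  obtain ⟨z, hz⟩ := hens a' (by
    rw [← PadicInt.padic_norm_e_of_padicInt, PadicInt.coe_sub, PadicInt.coe_one]
    exact h1)
  refine ⟨algebraMap ℚ_[2] (PadicAlgCl 2) (z : ℚ_[2]), ?_, fun τ => τ.commutes _⟩
  rw [← map_pow, ← hz, PadicInt.coe_pow]

section root

variable {x : PadicAlgCl 2} (hx : x ^ 2 = x - 2) (h1 : ‖x‖ < 1)
include hx h1

lemma norm_six : ‖x - 6‖ ≤ 1 / 16 := by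
  have hn : ‖x‖ = 1 / 2 := half_norm (by linear_combination -hx) h1
  have e : x - 6 = x ^ 2 * (x ^ 2 + 4) := by
    linear_combination (-(x ^ 2) - x - 3) * hx
  have h2 : ‖x ^ 2 + 4‖ ≤ 1 / 4 := add_le (by rw [norm_pow, hn]; norm_num) norm_four'.le
  rw [e, norm_mul, norm_pow, hn]
  nlinarith [norm_nonneg (x ^ 2 + 4)]

lemma norm_four_ten : ‖(4 : PadicAlgCl 2) - 10 * x‖ ≤ 1 / 8 := by
  have h2 := norm_six hx h1
  have h3 : ‖(2 : PadicAlgCl 2)‖ = 1 / 2 := by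
    rw [Pool.Agent.Y715.Gi.norm_two']
    norm_num
  have e : (4 : PadicAlgCl 2) - 10 * x = -(2 * (5 * (x - 6))) - 8 * 7 := by ring
  rw [e]
  have h5 : ‖(5 : PadicAlgCl 2)‖ ≤ 1 := by
    have := IsUltrametricDist.norm_natCast_le_one (PadicAlgCl 2) 5
    simpa using this
  have h7 : ‖(7 : PadicAlgCl 2)‖ ≤ 1 := by
    have := IsUltrametricDist.norm_natCast_le_one (PadicAlgCl 2) 7
    simpa using this
  refine sub_le ?_ ?_
  · rw [norm_neg, norm_mul, norm_mul, h3]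
    nlinarith [norm_nonneg (5 : PadicAlgCl 2), norm_nonneg (x - 6)]
  · rw [norm_mul, norm_eight']
    linarith

lemma root_fix (τ : Au 2) : τ x = x := two_fix hx τ

/-- `-(1 - x)` is five times a square -/
lemma root_five {f : PadicAlgCl 2} (hf : f ^ 2 = 5) : ∃ u : PadicAlgCl 2,
    (∀ τ : Au 2, τ u = u) ∧ (f * u) ^ 2 = -(1 - x) := by
  have h5 : ‖(5 : PadicAlgCl 2)‖ = 1 := by
    have := odd_norm (z := 5) (by norm_num)
    push_cast at this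
    exact this
  have h50 : (5 : PadicAlgCl 2) ≠ 0 := by
    intro h; rw [h, norm_zero] at h5; norm_num at h5
  obtain ⟨u, hu, hu'⟩ := sqrt_fix (x := -(1 - x) / 5) (fun τ => by
    rw [map_div₀, map_neg, map_sub, map_one, root_fix hx h1, map_ofNat]) (by
    have e : -(1 - x) / 5 - 1 = (x - 6) / 5 := by
      field_simp
      ring
    rw [e, norm_div, h5, div_one]
    exact (norm_six hx h1).trans (by norm_num))
  refine ⟨u, hu', ?_⟩
  rw [mul_pow, hf, hu]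
  field_simp

/-- `-x` is ten times a square -/
lemma root_ten {f g : PadicAlgCl 2} (hf : f ^ 2 = 5) (hg : g ^ 2 = 2) : ∃ u : PadicAlgCl 2,
    (∀ τ : Au 2, τ u = u) ∧ (f * g * u) ^ 2 = -x := by
  have h5 : ‖(5 : PadicAlgCl 2)‖ = 1 := by
    have := odd_norm (z := 5) (by norm_num)
    push_cast at this
    exact this
  have h3 : ‖(2 : PadicAlgCl 2)‖ = 1 / 2 := by
    rw [Pool.Agent.Y715.Gi.norm_two']
    norm_num
  have h50 : (5 : PadicAlgCl 2) ≠ 0 := by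
    intro h; rw [h, norm_zero] at h5; norm_num at h5
  obtain ⟨u, hu, hu'⟩ := sqrt_fix (x := -x / 10) (fun τ => by
    rw [map_div₀, map_neg, root_fix hx h1, map_ofNat]) (by
    have e : -x / 10 - 1 = -(((x - 6) + 8 * 2) / (2 * 5)) := by
      field_simp
      ring
    rw [e, norm_neg, norm_div, norm_mul, h5, h3]
    have h4 : ‖(x - 6) + 8 * 2‖ ≤ 1 / 16 := by
      refine add_le (norm_six hx h1) ?_
      rw [norm_mul, h3, norm_eight']
      norm_num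
    rw [mul_one, div_le_iff₀ (by norm_num)]
    linarith)
  refine ⟨u, hu', ?_⟩
  rw [mul_pow, mul_pow, hf, hg, hu]
  ring

end root


lemma five_norm : ‖(5 : PadicAlgCl 2)‖ = 1 := by
  have := odd_norm (z := 5) (by norm_num)
  push_cast at this
  exact this

/-- the number `D` at the two places above two -/
lemma D_close {i₀ : QB} (hi : i₀ ^ 2 = i₀ - 2) {ι : QB →ₐ[ℚ] PadicAlgCl 2} {P : OO}
    (h8 : (8 : OO) ∣ P - 5) :
    (‖ι i₀‖ < 1 → ‖em (iw hi ι) (-(s7 * P)) - 1‖ ≤ 1 / 8) ∧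
    (‖ι (1 - i₀)‖ < 1 → ‖em (iw hi ι) (-(s7 * P)) + 1‖ ≤ 1 / 8) := by
  have hs : em (iw hi ι) s7 = 2 * ι i₀ - 1 := by
    rw [em_apply]
    show ((-1 : ℤ) : PadicAlgCl 2) + ((2 : ℤ) : PadicAlgCl 2) * ι i₀ = _
    push_cast
    ring
  obtain ⟨t, ht⟩ := h8
  have hP : P = 5 + 8 * t := by linear_combination ht
  have hPe : em (iw hi ι) P = 5 + 8 * em (iw hi ι) t := by
    rw [hP, map_add, map_mul, map_ofNat, map_ofNat]
  have h8t : ‖(8 : PadicAlgCl 2) * (em (iw hi ι) s7 * em (iw hi ι) t)‖ ≤ 1 / 8 := by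
    rw [norm_mul, norm_eight', ← map_mul]
    have := em_le (iw hi ι) (s7 * t)
    linarith
  have hw := iw hi ι
  constructor
  · intro h
    have h1 := norm_four_ten hw h
    have e : em (iw hi ι) (-(s7 * P)) - 1 = (4 - 10 * ι i₀) -
        8 * (em (iw hi ι) s7 * em (iw hi ι) t) := by
      rw [map_neg, map_mul, hPe, hs]
      ring
    rw [e]
    exact sub_le h1 h8t
  · intro h
    rw [map_sub, map_one] at h
    have h1 := norm_four_ten (x := 1 - ι i₀) (by linear_combination hw) h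
    have e : em (iw hi ι) (-(s7 * P)) + 1 = -(4 - 10 * (1 - ι i₀)) -
        8 * (em (iw hi ι) s7 * em (iw hi ι) t) := by
      rw [map_neg, map_mul, hPe, hs]
      ring
    rw [e]
    exact sub_le (by rwa [norm_neg]) h8t

/-! ### The characters at the places above two -/

/-- one of the two characters: `a` is `i₀` or `1 - i₀` -/
structure PS {i₀ : QB} (ψ : GK i₀ →* ℤ_[2]ˣ) (a q : QB) : Prop where
  ha : a ^ 2 = a - 2
  one : ∀ σ : GK i₀, σ q = q → t8 (ψ σ) = 1 ∨ t8 (ψ σ) = 5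
  neg : ∀ σ : GK i₀, σ q = -q → t8 (ψ σ) = 3 ∨ t8 (ψ σ) = 7
  a8 : ∀ t : QB, t ^ 2 = -a → ∀ σ : GK i₀, σ t = t ↔ (t8 (ψ σ) = 1 ∨ t8 (ψ σ) = 7)
  inert : ∀ (ι : QB →ₐ[ℚ] PadicAlgCl 2) (τ : Au 2) (σ : GK i₀), Cmp ι τ σ → Inert τ →
    ‖ι a‖ = 1 → σ q = q → ψ σ = 1
  st : ∀ ι : QB →ₐ[ℚ] PadicAlgCl 2, ‖ι (1 - a)‖ < 1 → ‖(ι q) ^ 2 - 1‖ ≤ 1 / 8
  rl : ∀ ι : QB →ₐ[ℚ] PadicAlgCl 2, ‖ι a‖ < 1 → ‖(ι q) ^ 2 + 1‖ ≤ 1 / 8
  fx : ∀ (ι : QB →ₐ[ℚ] PadicAlgCl 2) (τ : Au 2), τ ((ι q) ^ 2) = (ι q) ^ 2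

section ps

variable {i₀ : QB} (hi : i₀ ^ 2 = i₀ - 2) {ψ : GK i₀ →* ℤ_[2]ˣ} {a q : QB}

lemma PS.w (h : PS ψ a q) (ι : QB →ₐ[ℚ] PadicAlgCl 2) : (ι a) ^ 2 = ι a - 2 := by
  rw [← map_pow, h.ha, map_sub, map_ofNat]

include hi in
/-- the strict place -/
lemma PS.strict (h : PS ψ a q) {ι : QB →ₐ[ℚ] PadicAlgCl 2} (hι : ‖ι (1 - a)‖ < 1) :
    (∃ σ₀ ∈ (DD ι : Set (GK i₀)), t8 (ψ σ₀) = 5) ∧ ∀ σ ∈ (II ι : Set (GK i₀)), ψ σ = 1 := by
  have hw := h.w ι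
  rw [map_sub, map_one] at hι
  have hw' : (1 - ι a) ^ 2 = (1 - ι a) - 2 := by linear_combination hw
  -- `q` is fixed
  obtain ⟨y, hy, hy'⟩ := sqrt_fix (h.fx ι) (h.st ι (by rwa [map_sub, map_one]))
  have hq : ∀ τ : Au 2, τ (ι q) = ι q := by
    intro τ
    rcases sq_eq_sq_iff_eq_or_eq_neg.1 hy with h1 | h1
    · rw [← h1, hy']
    · have h2 : ι q = -y := by rw [h1, neg_neg]
      rw [h2, map_neg, hy']
  have hqD : ∀ σ ∈ (DD ι : Set (GK i₀)), σ q = q := by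
    rintro σ ⟨τ, hτ⟩
    apply ι.injective
    show ι (σ q) = ι q
    rw [← hτ, hq]
  constructor
  · by_contra hcon
    push Not at hcon
    obtain ⟨t, ht⟩ : ∃ t : QB, t ^ 2 = -a := IsAlgClosed.exists_pow_nat_eq _ (by norm_num)
    have h1 : ∀ σ ∈ (DD ι : Set (GK i₀)), σ t = t := by
      intro σ hσ
      rw [h.a8 t ht σ]
      left
      rcases h.one σ (hqD σ hσ) with h2 | h2
      · exact h2
      · exact absurd h2 (hcon σ hσ)
    have h2 : ∀ τ : Au 2, τ (ι t) = ι t := fun τ => fix_D h1 τ (two_fix (iw hi ι) τ)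
    have h3 : (ι t) ^ 2 = -(1 - (1 - ι a)) := by rw [← map_pow, ht, map_neg]; ring
    have h6 := norm_six hw' hι
    have h5 : ‖(ι t) ^ 2 - 5‖ ≤ 1 / 8 := by
      have e : (ι t) ^ 2 - 5 = (1 - ι a) - 6 := by rw [h3]; ring
      rw [e]
      exact h6.trans (by norm_num)
    have h7 : ‖ι t‖ = 1 := by
      have h8 := norm_one_of5 h5
      rw [norm_pow] at h8
      exact (pow_eq_one_iff_of_nonneg (norm_nonneg _) two_ne_zero).1 h8
    have h9 := sq_mod_eight h7 h2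
    have h10 : ‖(4 : PadicAlgCl 2)‖ ≤ 1 / 8 := by
      have e : (4 : PadicAlgCl 2) = ((ι t) ^ 2 - 1) - ((ι t) ^ 2 - 5) := by ring
      rw [e]
      exact sub_le h9 h5
    rw [norm_four'] at h10
    norm_num at h10
  · rintro σ ⟨τ, hτ, hin⟩
    refine h.inert ι τ σ hτ hin ?_ (hqD σ ⟨τ, hτ⟩)
    have h1 : ‖ι a‖ ≤ 1 := w_le hw
    by_contra hne
    have h2 : ‖ι a‖ < 1 := lt_of_le_of_ne h1 hne
    have h3 : ‖(1 - ι a) + ι a‖ < 1 := add_lt hι h2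
    rw [sub_add_cancel, norm_one] at h3
    exact lt_irrefl _ h3

lemma zeta_four {ζ : PadicAlgCl 2} (hζ : IsPrimitiveRoot ζ 8) : ζ ^ 4 = -1 := by
  have h1 : ζ ^ 8 = 1 := hζ.pow_eq_one
  have h2 : (ζ ^ 4 - 1) * (ζ ^ 4 + 1) = 0 := by linear_combination h1
  rcases mul_eq_zero.1 h2 with h3 | h3
  · exfalso
    exact hζ.pow_ne_one_of_pos_of_lt (by norm_num) (by norm_num : 4 < 8) (sub_eq_zero.1 h3)
  · exact eq_neg_of_add_eq_zero_left h3

lemma zeta_cases {ζ : PadicAlgCl 2} (hζ : IsPrimitiveRoot ζ 8) (τ : Au 2) :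
    τ ζ = ζ ∨ τ ζ = ζ ^ 3 ∨ τ ζ = ζ ^ 5 ∨ τ ζ = ζ ^ 7 := by
  have h4 := zeta_four hζ
  have h1 : (τ ζ) ^ 8 = 1 := by rw [← map_pow, hζ.pow_eq_one, map_one]
  obtain ⟨i, hi, h2⟩ := hζ.eq_pow_of_pow_eq_one h1
  have h5 : (τ ζ) ^ 4 = -1 := by rw [← map_pow, h4, map_neg, map_one]
  have h1n : (1 : PadicAlgCl 2) ≠ -1 := by
    intro h
    have h3 : (2 : PadicAlgCl 2) = 0 := by linear_combination h
    have h6 := Pool.Agent.Y715.Gi.norm_two'
    rw [h3, norm_zero] at h6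
    norm_num at h6
  have key : ∀ k : ℕ, i = 2 * k → False := by
    rintro k rfl
    apply h1n
    rw [← h5, ← h2, ← pow_mul]
    have e : 2 * k * 4 = 8 * k := by ring
    rw [e, pow_mul, hζ.pow_eq_one, one_pow]
  interval_cases i
  · exact (key 0 rfl).elim
  · left; rw [← h2, pow_one]
  · exact (key 1 rfl).elim
  · right; left; exact h2.symm
  · exact (key 2 rfl).elim
  · right; right; left; exact h2.symm
  · exact (key 3 rfl).elim
  · right; right; right; exact h2.symm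

include hi in
/-- the relaxed place -/
lemma PS.relaxed (h : PS ψ a q) {ι : QB →ₐ[ℚ] PadicAlgCl 2} (hι : ‖ι a‖ < 1) :
    (∃ σ₀ : GK i₀, σ₀ q = -q) ∧ ∃ ζ f : PadicAlgCl 2, IsPrimitiveRoot ζ 8 ∧ f ^ 2 = 5 ∧
      ∀ (τ : Au 2) (σ : GK i₀), Cmp ι τ σ → (τ f = f → τ ζ = ζ ^ (t8 (ψ σ)).val) ∧
        (τ f = -f → τ ζ = ζ ^ (5 * t8 (ψ σ)).val) := by
  have hw := h.w ι
  obtain ⟨ζ, hζ⟩ := HasEnoughRootsOfUnity.exists_primitiveRoot (PadicAlgCl 2) 8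
  obtain ⟨f, hf⟩ : ∃ f : PadicAlgCl 2, f ^ 2 = 5 := IsAlgClosed.exists_pow_nat_eq _ (by norm_num)
  have h4 := zeta_four hζ
  have hJ : (ζ ^ 2) ^ 2 = -1 := by rw [← pow_mul]; exact h4
  set g : PadicAlgCl 2 := ζ + ζ ^ 7 with hg
  have hg2 : g ^ 2 = 2 := by
    rw [hg]
    linear_combination (2 * ζ ^ 4 - 2 + ζ ^ 10 - ζ ^ 6 + ζ ^ 2) * h4
  -- the root of `q`
  obtain ⟨y, hy, hy'⟩ := sqrt_fix (x := -(ι q) ^ 2) (fun τ => by rw [map_neg, h.fx]) (by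
    have e : -(ι q) ^ 2 - 1 = -((ι q) ^ 2 + 1) := by ring
    rw [e, norm_neg]
    exact h.rl ι hι)
  obtain ⟨t, ht⟩ : ∃ t : QB, t ^ 2 = -a := IsAlgClosed.exists_pow_nat_eq _ (by norm_num)
  obtain ⟨u, hu, hu'⟩ := root_ten hw hι hf hg2
  have hq0 : ι q ≠ 0 := by
    intro h0
    have h1 := h.rl ι hι
    rw [h0] at h1
    norm_num at h1
  have hy0 : y ≠ 0 := by
    rintro rfl
    apply hq0
    have h1 : (ι q) ^ 2 = 0 := by linear_combination hy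
    exact pow_eq_zero_iff two_ne_zero |>.1 h1
  have hqJ : (ι q) ^ 2 = (ζ ^ 2 * y) ^ 2 := by rw [mul_pow, hJ, hy]; ring
  have htu : (ι t) ^ 2 = (f * g * u) ^ 2 := by rw [hu', ← map_pow, ht, map_neg]
  have ha0 : ι a ≠ 0 := by
    intro h0
    rw [h0] at hw
    have h3 : (2 : PadicAlgCl 2) = 0 := by linear_combination hw
    have h6 := Pool.Agent.Y715.Gi.norm_two'
    rw [h3, norm_zero] at h6
    norm_num at h6
  have ht0 : f * g * u ≠ 0 := by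
    intro h0
    rw [h0] at hu'
    apply ha0
    linear_combination hu'
  have hu0 : u ≠ 0 := right_ne_zero_of_mul ht0
  have hfg0 : f * g ≠ 0 := left_ne_zero_of_mul ht0
  have h20 : (2 : PadicAlgCl 2) ≠ 0 := by
    intro h3
    have h6 := Pool.Agent.Y715.Gi.norm_two'
    rw [h3, norm_zero] at h6
    norm_num at h6
  have hneg : ∀ z : PadicAlgCl 2, z ≠ 0 → z ≠ -z := by
    intro z hz h1
    have h2 : 2 * z = 0 := by linear_combination h1
    exact (mul_ne_zero h20 hz) h2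
  have hJ0 : ζ ^ 2 ≠ 0 := by
    intro h0
    rw [h0] at hJ
    norm_num at hJ
  -- the action on `q` and on `t`
  have hqa : ∀ (τ : Au 2) (σ : GK i₀), Cmp ι τ σ → (τ (ζ ^ 2) = ζ ^ 2 → σ q = q) ∧
      (τ (ζ ^ 2) = -ζ ^ 2 → σ q = -q) := by
    intro τ σ hc
    have key : ∀ e : PadicAlgCl 2, (e = 1 ∨ e = -1) → τ (ζ ^ 2) = e * ζ ^ 2 → ι (σ q) = e * ι q := by
      intro e he h1
      rw [← hc]
      rcases sq_eq_sq_iff_eq_or_eq_neg.1 hqJ with h2 | h2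
      · rw [h2, map_mul, h1, hy']; ring
      · rw [h2, map_neg, map_mul, h1, hy']; ring
    constructor
    · intro h1
      apply ι.injective
      have := key 1 (Or.inl rfl) (by rw [h1, one_mul])
      rw [one_mul] at this
      exact this
    · intro h1
      apply ι.injective
      have := key (-1) (Or.inr rfl) (by rw [h1]; ring)
      show ι (σ q) = ι (-q)
      rw [this, map_neg]
      ring
  have hta : ∀ (τ : Au 2) (σ : GK i₀), Cmp ι τ σ → (σ t = t ↔ τ (f * g) = f * g) := by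
    intro τ σ hc
    have h1 : σ t = t ↔ τ (ι t) = ι t := by
      rw [hc]
      exact ⟨fun h1 => by rw [h1], fun h1 => ι.injective h1⟩
    have h2 : τ (ι t) = ι t ↔ τ (f * g * u) = f * g * u := by
      rcases sq_eq_sq_iff_eq_or_eq_neg.1 htu with h2 | h2
      · rw [h2]
      · rw [h2, map_neg, neg_inj]
    rw [h1, h2, map_mul τ (f * g) u, hu]
    exact ⟨fun h => mul_right_cancel₀ hu0 h, fun h => by rw [h]⟩
  refine ⟨?_, ζ, f, hζ, hf, ?_⟩
  · by_contra hcon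
    push Not at hcon
    have h1 : ∀ τ : Au 2, τ (ζ ^ 2) = ζ ^ 2 := by
      intro τ
      obtain ⟨σ, hσ⟩ := exists_cmp ι τ (two_fix (iw hi ι) τ)
      have h2 : (τ (ζ ^ 2)) ^ 2 = (ζ ^ 2) ^ 2 := by rw [← map_pow, hJ, map_neg, map_one]
      rcases sq_eq_sq_iff_eq_or_eq_neg.1 h2 with h3 | h3
      · exact h3
      · exact absurd ((hqa τ σ hσ).2 h3) (hcon σ)
    have h2 : ‖ζ ^ 2‖ = 1 := by
      have h3 : ‖(ζ ^ 2) ^ 2‖ = 1 := by rw [hJ, norm_neg, norm_one]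
      rw [norm_pow] at h3
      exact (pow_eq_one_iff_of_nonneg (norm_nonneg _) two_ne_zero).1 h3
    have h3 := sq_mod_eight h2 h1
    have e : (ζ ^ 2) ^ 2 - 1 = -(2 : PadicAlgCl 2) := by rw [hJ]; norm_num
    rw [e, norm_neg, Pool.Agent.Y715.Gi.norm_two'] at h3
    norm_num at h3
  · intro τ σ hc
    obtain ⟨q1, q2⟩ := hqa τ σ hc
    have ta := hta τ σ hc
    have a8 := h.a8 t ht σ
    have z8 : ζ ^ 8 = 1 := hζ.pow_eq_one
    -- the values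
    have v1 : (1 : ZMod 8).val = 1 := rfl
    have v3 : (3 : ZMod 8).val = 3 := rfl
    have v5 : (5 : ZMod 8).val = 5 := rfl
    have v7 : (7 : ZMod 8).val = 7 := rfl
    have w1 : (5 * 1 : ZMod 8).val = 5 := rfl
    have w3 : (5 * 3 : ZMod 8).val = 7 := rfl
    have w5 : (5 * 5 : ZMod 8).val = 1 := rfl
    have w7 : (5 * 7 : ZMod 8).val = 3 := rfl
    have n31 : ¬ ((3 : ZMod 8) = 1 ∨ (3 : ZMod 8) = 7) := by decide
    have n51 : ¬ ((5 : ZMod 8) = 1 ∨ (5 : ZMod 8) = 7) := by decide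
    have p1 : ((1 : ZMod 8) = 1 ∨ (1 : ZMod 8) = 7) := by decide
    have p7 : ((7 : ZMod 8) = 1 ∨ (7 : ZMod 8) = 7) := by decide
    have hfgn := hneg _ hfg0
    -- the four cases
    have case1 : τ (ζ ^ 2) = ζ ^ 2 → (t8 (ψ σ) = 1 ∧ τ (f * g) = f * g) ∨
        (t8 (ψ σ) = 5 ∧ τ (f * g) ≠ f * g) := by
      intro h1
      rcases h.one σ (q1 h1) with h2 | h2
      · left
        exact ⟨h2, ta.1 (a8.2 (by rw [h2]; exact p1))⟩
      · right
        refine ⟨h2, fun h3 => n51 ?_⟩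
        have := a8.1 (ta.2 h3)
        rwa [h2] at this
    have case2 : τ (ζ ^ 2) = -ζ ^ 2 → (t8 (ψ σ) = 7 ∧ τ (f * g) = f * g) ∨
        (t8 (ψ σ) = 3 ∧ τ (f * g) ≠ f * g) := by
      intro h1
      rcases h.neg σ (q2 h1) with h2 | h2
      · right
        refine ⟨h2, fun h3 => n31 ?_⟩
        have := a8.1 (ta.2 h3)
        rwa [h2] at this
      · left
        exact ⟨h2, ta.1 (a8.2 (by rw [h2]; exact p7))⟩
    have gz : ∀ n : ℕ, τ ζ = ζ ^ n → τ g = ζ ^ n + ζ ^ (7 * n) := by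
      intro n hn
      rw [hg, map_add, map_pow, hn, ← pow_mul, mul_comm n 7]
    have jz : ∀ n : ℕ, τ ζ = ζ ^ n → τ (ζ ^ 2) = ζ ^ (2 * n) := by
      intro n hn
      rw [map_pow, hn, ← pow_mul, mul_comm n 2]
    rcases zeta_cases hζ τ with h1 | h1 | h1 | h1
    · have g1 : τ g = g := by rw [gz 1 (by rw [h1, pow_one])]; rw [hg]; ring
      have j1 : τ (ζ ^ 2) = ζ ^ 2 := by rw [jz 1 (by rw [h1, pow_one])]
      constructor
      · intro hf1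
        rcases case1 j1 with ⟨h2, -⟩ | ⟨-, h3⟩
        · rw [h2, v1, pow_one, h1]
        · exact absurd (by rw [map_mul, hf1, g1]) h3
      · intro hf1
        rcases case1 j1 with ⟨-, h3⟩ | ⟨h2, -⟩
        · exfalso
          rw [map_mul, hf1, g1] at h3
          exact hfgn (by linear_combination -h3)
        · rw [h2, w5, pow_one, h1]
    · have g1 : τ g = -g := by
        rw [gz 3 h1, hg]
        linear_combination (ζ ^ 3 + ζ) * h4 + (ζ ^ 17 - ζ ^ 13 + ζ ^ 9 - ζ ^ 5) * h4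
      have j1 : τ (ζ ^ 2) = -ζ ^ 2 := by
        rw [jz 3 h1]
        linear_combination ζ ^ 2 * h4
      constructor
      · intro hf1
        rcases case2 j1 with ⟨-, h3⟩ | ⟨h2, -⟩
        · exfalso
          rw [map_mul, hf1, g1] at h3
          exact hfgn (by linear_combination -h3)
        · rw [h2, v3, h1]
      · intro hf1
        rcases case2 j1 with ⟨h2, -⟩ | ⟨-, h3⟩
        · rw [h2, w7, h1]
        · exact absurd (by rw [map_mul, hf1, g1]; ring) h3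
    · have g1 : τ g = -g := by
        rw [gz 5 h1, hg]
        linear_combination (ζ + ζ ^ 3) * h4 + (ζ ^ 31 - ζ ^ 27 + ζ ^ 23 - ζ ^ 19 + ζ ^ 15 - ζ ^ 11 +
          ζ ^ 7 - ζ ^ 3) * h4
      have j1 : τ (ζ ^ 2) = ζ ^ 2 := by
        rw [jz 5 h1]
        linear_combination (ζ ^ 6 - ζ ^ 2) * h4
      constructor
      · intro hf1
        rcases case1 j1 with ⟨-, h3⟩ | ⟨h2, -⟩
        · exfalso
          rw [map_mul, hf1, g1] at h3
          exact hfgn (by linear_combination -h3)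
        · rw [h2, v5, h1]
      · intro hf1
        rcases case1 j1 with ⟨h2, -⟩ | ⟨-, h3⟩
        · rw [h2, w1, h1]
        · exact absurd (by rw [map_mul, hf1, g1]; ring) h3
    · have g1 : τ g = g := by
        rw [gz 7 h1, hg]
        linear_combination (ζ ^ 45 - ζ ^ 41 + ζ ^ 37 - ζ ^ 33 + ζ ^ 29 - ζ ^ 25 + ζ ^ 21 - ζ ^ 17 +
          ζ ^ 13 - ζ ^ 9 + ζ ^ 5 - ζ) * h4
      have j1 : τ (ζ ^ 2) = -ζ ^ 2 := by
        rw [jz 7 h1]
        linear_combination (ζ ^ 10 - ζ ^ 6 + ζ ^ 2) * h4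
      constructor
      · intro hf1
        rcases case2 j1 with ⟨h2, -⟩ | ⟨-, h3⟩
        · rw [h2, v7, h1]
        · exact absurd (by rw [map_mul, hf1, g1]) h3
      · intro hf1
        rcases case2 j1 with ⟨-, h3⟩ | ⟨h2, -⟩
        · exfalso
          rw [map_mul, hf1, g1] at h3
          exact hfgn (by linear_combination -h3)
        · rw [h2, w3, h1]

end ps

end Pool.Agent.L0h19.H1
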