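import Pool.Agent.L0h19.H1.Loc

/-!
# H1-P5: the residual class of a cocycle, the number `m` being a square at the strict place
-/

set_option autoImplicit false
set_option linter.unusedSectionVars false

namespace Pool.Agent.L0h19.H1

open Pool.Agent.R384 Pool.Agent.L0h75.H1
open Pool.Agent.Y715.Red Pool.Agent.Y715.Nr Pool.Agent.W237.RK
open Pool.Agent.Y715.Gi (QB KK GK i₀_mem gk_fix)
open Pool.Agent.Y715.Df (Cmp exists_cmp)
open Pool.Agent.Y715.Lc (norm_two_odd)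

open scoped Classical

section core

variable {i₀ : QB} (hi : i₀ ^ 2 = i₀ - 2) {χ : GK i₀ →* ℤ_[2]ˣ} {m : OO} {r : QB}

/-- a locally constant function on the global group is locally constant on the local group -/
lemma lc_res {X : Type} {F : GK i₀ → X} (hF : IsLocallyConstant F) (ι : QB →ₐ[ℚ] PadicAlgCl 2)
    (res : Au 2 → GK i₀) (hres : ∀ τ, Cmp ι τ (res τ)) :
    IsLocallyConstant fun τ => F (res τ) := by
  rw [IsLocallyConstant.iff_exists_open]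
  intro τ
  obtain ⟨V, hV, hτV, hVc⟩ := (IsLocallyConstant.iff_exists_open _).1 hF (res τ)
  have h1 : {g : GK i₀ | res τ * g ∈ V} ∈ nhds (1 : GK i₀) := by
    refine (hV.preimage (continuous_const_mul (res τ))).mem_nhds ?_
    show res τ * 1 ∈ V
    rwa [mul_one]
  rw [krullTopology_mem_nhds_one_iff] at h1
  obtain ⟨E, hE, hEV⟩ := h1
  let b := Module.finBasis (KK i₀) E
  refine ⟨⋂ i, {τ' : Au 2 | τ' (ι (b i)) = τ (ι (b i))}, isOpen_iInter_of_finite fun i => ?_, ?_, ?_⟩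
  · exact (Pool.Agent.W309.TD.locConst_apply (K := ℚ_[2]) (Ω := PadicAlgCl 2)
      (ι (b i))).isOpen_fiber _
  · simp
  · intro τ' hτ'
    have h2 : (res τ)⁻¹ * res τ' ∈ E.fixingSubgroup := by
      rw [IntermediateField.mem_fixingSubgroup_iff]
      intro x hx
      have hb : ∀ i, ((res τ)⁻¹ * res τ') (b i : QB) = b i := by
        intro i
        have h3 : τ' (ι (b i)) = τ (ι (b i)) := Set.mem_iInter.1 hτ' i
        rw [hres τ', hres τ] at h3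
        have h4 : res τ' (b i : QB) = res τ (b i : QB) := ι.injective h3
        rw [AlgEquiv.mul_apply, h4, ← AlgEquiv.mul_apply, inv_mul_cancel, AlgEquiv.one_apply]
      have h5 : (((res τ)⁻¹ * res τ').toLinearMap ∘ₗ E.val.toLinearMap) = E.val.toLinearMap := by
        apply b.ext
        intro i
        exact hb i
      exact LinearMap.congr_fun h5 ⟨x, hx⟩
    have h3 := hEV h2
    have h4 : res τ' ∈ V := by
      have h5 : res τ * ((res τ)⁻¹ * res τ') ∈ V := h3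
      rwa [mul_inv_cancel_left] at h5
    exact hVc _ h4

lemma t8_even' (z : ℤ_[2]) : (t8 z).val % 2 = 0 ↔ ‖(z : ℚ_[2])‖ < 1 := by
  have h1 : ∀ a : ZMod 8, a.val % 2 = 0 ↔ 4 * a = 0 := by decide
  have h2 : 4 * t8 z = t8 (4 * z) := by rw [map_mul, map_ofNat]
  have h4 : ‖(4 : ℚ_[2])‖ = 1 / 4 := by
    have e : (4 : ℚ_[2]) = 2 ^ 2 := by norm_num
    rw [e, norm_pow, Pool.Agent.R384.norm_two']
    norm_num
  have h5 : ((4 : ℤ_[2]) : ℚ_[2]) = 4 := map_ofNat PadicInt.Coe.ringHom 4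
  rw [h1, h2, t8_norm, PadicInt.coe_mul, norm_mul, h5, h4]
  constructor
  · intro h; linarith
  · intro h
    have := norm_lt_one h
    linarith

/-- the valuation at the relaxed place -/
lemma ev_of (hT : S_T5) {c : GK i₀ → ℚ_[2]} (hc : Coc χ c) (hint : ∀ σ, ‖c σ‖ ≤ 1) {ϖ' : OO}
    (hϖ' : Prime ϖ') (h2' : ϖ' * (1 - ϖ') = 2) {ι : QB →ₐ[ℚ] PadicAlgCl 2}
    (hι : ‖em (iw hi ι) ϖ'‖ < 1) {ζ f : PadicAlgCl 2} (hζ : IsPrimitiveRoot ζ 8) (hf : f ^ 2 = 5)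
    (hact : ∀ (τ : Au 2) (σ : GK i₀), Cmp ι τ σ → (τ f = f → τ ζ = ζ ^ (t8 (χ σ)).val) ∧
      (τ f = -f → τ ζ = ζ ^ (5 * t8 (χ σ)).val))
    {δ : OO} (hδ : Squarefree δ) {s : QB} (hs : s ^ 2 = em hi δ)
    (hk : ∀ σ : GK i₀, σ s = s ↔ md c σ = 0) : ¬ ϖ' ∣ δ := by
  choose res hres using fun τ : Au 2 => exists_cmp ι τ (two_fix (iw hi ι) τ)
  have hmul : ∀ τ τ', res (τ * τ') = res τ * res τ' := by
    intro τ τ'
    apply AlgEquiv.ext
    intro x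
    apply ι.injective
    show ι (res (τ * τ') x) = ι ((res τ * res τ') x)
    rw [← hres (τ * τ') x, ((hres τ).mul (hres τ')) x]
  obtain ⟨z8, hz8⟩ : ∃ z8 : GK i₀ → ℤ_[2], ∀ σ, (z8 σ : ℚ_[2]) = c σ :=
    ⟨fun σ => ⟨c σ, hint σ⟩, fun _ => rfl⟩
  set c8 : GK i₀ → ZMod 8 := fun σ => t8 (z8 σ) with hc8d
  have hc8 : IsLocallyConstant c8 := by
    rw [IsLocallyConstant.iff_exists_open]
    intro σ
    refine ⟨{τ | ‖c τ - c σ‖ < 1 / 8}, ?_, ?_, fun τ hτ => ?_⟩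
    · exact isOpen_lt (by have := hc.cont; fun_prop) continuous_const
    · show ‖c σ - c σ‖ < 1 / 8
      rw [sub_self, norm_zero]
      norm_num
    · have hτ' : ‖c τ - c σ‖ < 1 / 8 := hτ
      have h1 : t8 (z8 τ - z8 σ) = 0 := by
        rw [t8_norm, PadicInt.coe_sub, hz8, hz8]
        exact hτ'.le
      rw [map_sub] at h1
      exact sub_eq_zero.1 h1
  have hc8m : ∀ σ τ, c8 (σ * τ) = c8 σ + t8 (χ σ) * c8 τ := by
    intro σ τ
    have h1 : z8 (σ * τ) = z8 σ + (χ σ : ℤ_[2]) * z8 τ := by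
      apply Subtype.ext
      rw [PadicInt.coe_add, PadicInt.coe_mul, hz8, hz8, hz8]
      exact hc.mul σ τ
    show t8 (z8 (σ * τ)) = _
    rw [h1, map_add, map_mul]
  have hsq : (ι s) ^ 2 = em (iw hi ι) δ := by rw [← map_pow, hs, ι_em]
  have hδ0 : δ ≠ 0 := hδ.ne_zero
  have hs0 : ι s ≠ 0 := by
    intro h0
    rw [h0] at hsq
    exact em_ne (iw hi ι) hδ0 (by rw [← hsq]; ring)
  obtain ⟨k, hk'⟩ := hT ζ f (ι s) (fun τ => c8 (res τ)) (fun τ => t8 (χ (res τ))) hζ hf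
    (lc_res hc8 ι res hres) (fun τ => hact τ _ (hres τ))
    (fun τ τ' => by
      show c8 (res (τ * τ')) = _
      rw [hmul, hc8m]) hs0
    (fun τ => by
      have h1 : τ (ι s) = ι s ↔ res τ s = s := by
        rw [hres]
        exact ⟨fun h => ι.injective h, fun h => by rw [h]⟩
      rw [h1, hk, md_zero, ← hz8]
      exact (t8_even' _).symm)
    (fun τ => by rw [hsq, em_fix (iw hi ι) (two_fix (iw hi ι) τ)])
  rintro ⟨t, rfl⟩
  have h4 : ¬ ϖ' ∣ t := by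
    rintro ⟨v, rfl⟩
    exact hϖ'.not_isUnit (hδ ϖ' ⟨v, by ring⟩)
  have h5 := eq_one_of_not_lt (iw hi ι) ((dvd_iff (iw hi ι) hϖ' hι t).not.1 h4)
  have hn : ‖em (iw hi ι) ϖ'‖ = 1 / 2 := half_norm (by
    rw [← map_one (em (iw hi ι)), ← map_sub, ← map_mul, h2', map_ofNat]) hι
  rw [hsq, map_mul, norm_mul, hn, h5, mul_one] at hk'
  have e : (1 / 4 : ℝ) ^ k = (1 / 2 : ℝ) ^ (2 * k) := by
    rw [zpow_mul]
    norm_num
  rw [e] at hk'
  have h6 : (1 / 2 : ℝ) ^ (1 : ℤ) = (1 / 2 : ℝ) ^ (2 * k) := by rw [zpow_one]; exact hk'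
  have h7 := zpow_right_injective₀ (a := (1 / 2 : ℝ)) (by norm_num) (by norm_num) h6
  omega

/-- the strict place: units with an unramified square root -/
lemma st_of {ϖ ϖ' : OO} (h2 : Two ϖ ϖ') {ι : QB →ₐ[ℚ] PadicAlgCl 2}
    (hι : ‖em (iw hi ι) ϖ‖ < 1) {δ : OO} (hδ : Squarefree δ) {s : QB} (hs : s ^ 2 = em hi δ)
    (hfix : ∀ σ ∈ (II ι : Set (GK i₀)), σ s = s) : ϖ ^ 2 ∣ δ - 1 := by
  obtain ⟨hϖp, hϖp', hϖ2, h2'⟩ := two_prime h2
  have hw := iw hi ι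
  have hsq : (ι s) ^ 2 = em (iw hi ι) δ := by rw [← map_pow, hs, ι_em]
  have hfI : ∀ τ : Au 2, Inert τ → τ (ι i₀) = ι i₀ → τ (ι s) = ι s :=
    fun τ hin hτ => fix_I hfix τ hin hτ
  have hnd := not_dvd_of_fix hw hϖp hι hδ hsq hfI
  have hn1 : ‖em hw δ‖ = 1 := eq_one_of_not_lt hw ((dvd_iff hw hϖp hι δ).not.1 hnd)
  have hs1 : ‖ι s‖ = 1 := by
    rw [← hsq, norm_pow] at hn1
    exact (pow_eq_one_iff_of_nonneg (norm_nonneg _) two_ne_zero).1 hn1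
  have h2n : ‖(2 : PadicAlgCl 2)‖ = 1 / 2 := by
    rw [Pool.Agent.Y715.Gi.norm_two']
    norm_num
  -- `δ` is congruent to one modulo the prime
  have hδ1 : ‖em hw δ - 1‖ < 1 := by
    obtain ⟨a, ha⟩ := near (x := em hw δ) hn1.le (fun τ => em_fix hw (two_fix hw τ) δ)
    rcases Int.even_or_odd a with h3 | h3
    · exfalso
      obtain ⟨k, hk⟩ := h3
      have h4 : ‖(a : PadicAlgCl 2)‖ < 1 := by
        have e : (a : PadicAlgCl 2) = 2 * (k : PadicAlgCl 2) := by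
          rw [hk]
          push_cast
          ring
        rw [e, norm_mul, h2n]
        have := IsUltrametricDist.norm_intCast_le_one (PadicAlgCl 2) k
        linarith
      have h5 : ‖em hw δ‖ < 1 := by
        have e : em hw δ = (em hw δ - a) + a := by ring
        rw [e]
        exact add_lt ha h4
      rw [hn1] at h5
      exact lt_irrefl _ h5
    · obtain ⟨k, hk⟩ := h3
      have e : em hw δ - 1 = (em hw δ - a) + 2 * (k : PadicAlgCl 2) := by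
        rw [hk]
        push_cast
        ring
      rw [e]
      refine add_lt ha ?_
      rw [norm_mul, h2n]
      have := IsUltrametricDist.norm_intCast_le_one (PadicAlgCl 2) k
      linarith
  set y : PadicAlgCl 2 := ι s with hy
  have hy1 : ‖y - 1‖ ≤ 1 := sub_le hs1.le (by rw [norm_one])
  have hy2 : ‖y - 1‖ < 1 := by
    have e : (y - 1) ^ 2 = (em hw δ - 1) - 2 * (y - 1) := by
      rw [← hsq]
      ring
    have h3 : ‖(y - 1) ^ 2‖ < 1 := by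
      rw [e]
      refine sub_lt hδ1 ?_
      rw [norm_mul, h2n]
      linarith
    rw [norm_pow] at h3
    by_contra hcon
    push Not at hcon
    nlinarith
  have hy3 : ‖y - 1‖ ≤ 1 / 2 := by
    by_cases h0 : y - 1 = 0
    · rw [h0, norm_zero]; norm_num
    · obtain ⟨n, hn⟩ := norm_odd hw (by norm_num) h0 (fun τ hin hτ => by
        rw [map_sub, map_one, hfI τ hin hτ])
      rw [hn] at hy2 ⊢
      push_cast at hy2 ⊢
      have h3 : n < 0 := by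
        by_contra hcon
        push Not at hcon
        have := one_le_zpow₀ (a := (2 : ℝ)) (by norm_num) hcon
        linarith
      calc (2 : ℝ) ^ n ≤ 2 ^ (-1 : ℤ) := zpow_le_zpow_right₀ (by norm_num) (by omega)
        _ = 1 / 2 := by norm_num
  refine dvd_pow_of hw h2 hι 2 _ ?_
  rw [map_sub, map_one]
  have e : em hw δ - 1 = (y - 1) * ((y - 1) + 2) := by
    rw [← hsq]
    ring
  have h3 : ‖(y - 1) + 2‖ ≤ 1 / 2 := add_le hy3 h2n.le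
  rw [e, norm_mul]
  nlinarith [norm_nonneg (y - 1), norm_nonneg ((y - 1) + 2)]

theorem core5 (hT : S_T5) (cd : ChiD hi χ m r) {ϖ ϖ' : OO} (h2 : Two ϖ ϖ')
    (hST : ∀ ι : QB →ₐ[ℚ] PadicAlgCl 2, ‖em (iw hi ι) ϖ‖ < 1 →
      (∃ σ₀ ∈ (DD ι : Set (GK i₀)), ‖vl χ σ₀ - 1‖ = 1 / 4) ∧
        ∀ σ ∈ (II ι : Set (GK i₀)), ‖vl χ σ - 1‖ ≤ 1 / 8)
    (hRL : ∀ ι : QB →ₐ[ℚ] PadicAlgCl 2, ‖em (iw hi ι) ϖ'‖ < 1 →
      (∃ σ₀ : GK i₀, σ₀ r = -r) ∧ ∃ ζ f : PadicAlgCl 2, IsPrimitiveRoot ζ 8 ∧ f ^ 2 = 5 ∧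
        ∀ (τ : Au 2) (σ : GK i₀), Cmp ι τ σ → (τ f = f → τ ζ = ζ ^ (t8 (χ σ)).val) ∧
          (τ f = -f → τ ζ = ζ ^ (5 * t8 (χ σ)).val))
    {c : GK i₀ → ℚ_[2]} (hc : Coc χ c)
    (hodd : ∀ (p : ℕ) [Fact p.Prime] (ι : QB →ₐ[ℚ] PadicAlgCl p), p ≠ 2 → CobOn χ (II ι) c)
    (hstr : ∀ ι : QB →ₐ[ℚ] PadicAlgCl 2, ‖ι (em hi ϖ)‖ < 1 → CobOn χ (DD ι) c)
    (hn : ¬ ∃ y : ℚ_[2], ∀ σ, c σ = (vl χ σ - 1) * y) :
    ∃ δ : OO, Sel5 m ϖ ϖ' δ ∧ δ ≠ 1 ∧ δ ≠ m := by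
  obtain ⟨hϖp, hϖp', hϖ2, -⟩ := two_prime h2
  have h2s : Two ϖ' ϖ := by
    rcases h2 with ⟨h, h'⟩ | ⟨h, h'⟩
    · exact Or.inr ⟨h', h⟩
    · exact Or.inl ⟨h', h⟩
  obtain ⟨-, -, -, h2'⟩ := two_prime h2s
  -- the strict place
  obtain ⟨p, hpf, ι, hι⟩ := exists_emb hi hϖp
  have hp2 : p = 2 := by
    rw [ι_em] at hι
    exact (two_of_dvd hϖp (iw hi ι) hι).2 ⟨_, hϖ2.symm⟩
  subst hp2
  have hι' : ‖em (iw hi ι) ϖ‖ < 1 := by rwa [ι_em] at hι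
  obtain ⟨⟨σs, hσsD, hσs⟩, hII⟩ := hST ι hι'
  -- the relaxed place
  obtain ⟨p, hpf', ι', hιr⟩ := exists_emb hi hϖp'
  have hp2 : p = 2 := by
    rw [ι_em] at hιr
    exact (two_of_dvd hϖp' (iw hi ι') hιr).2 ⟨ϖ, by rw [← hϖ2]; ring⟩
  subst hp2
  have hιr' : ‖em (iw hi ι') ϖ'‖ < 1 := by rwa [ι_em] at hιr
  obtain ⟨⟨σ₀, hσ₀⟩, ζ, f, hζ, hf, hact⟩ := hRL ι' hιr'
  -- normalization
  obtain ⟨a, y, ha, hint, hmin⟩ := normalize hc (cd.big hi hσ₀) hn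
  set c' : GK i₀ → ℚ_[2] := fun σ => a * c σ + (vl χ σ - 1) * y with hc'
  have hcc : Coc χ c' := hc.twist cd.cont a y
  have hodd' : ∀ (p : ℕ) [Fact p.Prime] (ι : QB →ₐ[ℚ] PadicAlgCl p), p ≠ 2 →
      CobOn χ (II ι) c' := fun p _ ι hp => (hodd p ι hp).twist a y
  have hstr' : CobOn χ (DD ι) c' := (hstr ι hι).twist a y
  -- Kummer theory
  obtain ⟨δ, hδ, hkum⟩ := kum hi (md c') (md_cont hcc) (md_mul hcc hint)
  obtain ⟨s, hs⟩ : ∃ s : QB, s ^ 2 = em hi δ := IsAlgClosed.exists_pow_nat_eq _ (by norm_num)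
  have hk : ∀ σ : GK i₀, σ s = s ↔ md c' σ = 0 := hkum s hs
  obtain ⟨hne1, hne2⟩ := not_triv hi cd hint hmin hs hk
  refine ⟨δ, ⟨odd_cond hi cd hcc hint hodd' hδ hs hk, ?_, ?_⟩, hne1, hne2⟩
  · refine st_of hi h2 hι' hδ hs fun σ hσ => ?_
    rw [hk, md_zero]
    obtain ⟨z, hz⟩ := hstr'
    have h3 : ‖z‖ ≤ 4 := by
      have h4 := hint σs
      have h5 := hz σs hσsD
      have h6 : ‖c' σs‖ ≤ 1 := h4
      rw [h5, norm_mul, hσs] at h6
      linarith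
    rw [hz σ (II_sub hσ), norm_mul]
    have h4 := hII σ hσ
    nlinarith [norm_nonneg z, norm_nonneg (vl χ σ - 1)]
  · exact ev_of hi hT hcc hint hϖp' h2' hιr' hζ hf hact hδ hs hk

end core

section final

variable {i₀ : QB} (hi : i₀ ^ 2 = i₀ - 2) {κ κ' : GK i₀ →* ℤ_[2]ˣ} {D P : OO} {r I : QB}

include hi in
lemma ps' (kd : KD hi κ κ' D r I) (k8 : K8D i₀ κ κ') (hD : D = -(s7 * P))
    (h8 : (8 : OO) ∣ P - 5) : PS κ' (1 - i₀) r := by
  have hr : ∀ ι : QB →ₐ[ℚ] PadicAlgCl 2, (ι r) ^ 2 = em (iw hi ι) D := fun ι => by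
    rw [← map_pow, kd.hr, ι_em]
  refine ⟨by linear_combination hi, fun σ h => (t8_ph _).1 (kd.one' σ h),
    fun σ h => (t8_ph _).2 (kd.neg' σ h), fun t ht σ => (k8.b t ht σ).trans (t8_pm _), ?_, ?_, ?_, ?_⟩
  · intro ι τ σ hc hin hn hq
    exact (kd.inert' 2 ι τ σ hc hin hn).1 hq
  · intro ι h
    rw [sub_sub_cancel] at h
    rw [hr, hD]
    exact (D_close hi h8).1 h
  · intro ι h
    rw [hr, hD]
    exact (D_close hi h8).2 h
  · intro ι τ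
    rw [hr, em_fix (iw hi ι) (two_fix (iw hi ι) τ)]

include hi in
lemma ps (kd : KD hi κ κ' D r I) (k8 : K8D i₀ κ κ') (hD : D = -(s7 * P))
    (h8 : (8 : OO) ∣ P - 5) : PS κ i₀ (I * r) := by
  have hr : ∀ ι : QB →ₐ[ℚ] PadicAlgCl 2, (ι (I * r)) ^ 2 = -em (iw hi ι) D := fun ι => by
    rw [← map_pow, mul_pow, kd.hI, kd.hr, map_mul, map_neg, map_one, ι_em]
    ring
  refine ⟨hi, fun σ h => (t8_ph _).1 (kd.one σ h),
    fun σ h => (t8_ph _).2 (kd.neg σ h), fun t ht σ => (k8.a t ht σ).trans (t8_pm _), ?_, ?_, ?_, ?_⟩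
  · intro ι τ σ hc hin hn hq
    exact (kd.inert 2 ι τ σ hc hin hn).1 hq
  · intro ι h
    have e : -em (iw hi ι) D - 1 = -(em (iw hi ι) D + 1) := by ring
    rw [hr, e, norm_neg, hD]
    exact (D_close hi h8).2 h
  · intro ι h
    have e : -em (iw hi ι) D + 1 = -(em (iw hi ι) D - 1) := by ring
    rw [hr, e, norm_neg, hD]
    exact (D_close hi h8).1 h
  · intro ι τ
    rw [hr, map_neg, em_fix (iw hi ι) (two_fix (iw hi ι) τ)]

/-- the conclusion for a character congruent to `ψ` modulo eight -/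
theorem fin5 (hT : S_T5) {χ ψ : GK i₀ →* ℤ_[2]ˣ} (h8 : ∀ σ, t8 (χ σ) = t8 (ψ σ)) {a q : QB}
    (hps : PS ψ a q) {m : OO} {s : QB} (cd : ChiD hi χ m s) (hqs : q ^ 2 = s ^ 2)
    {ϖ ϖ' : OO} (h2 : Two ϖ ϖ') (ha : em hi ϖ' = a) (ha' : em hi ϖ = 1 - a)
    {c : GK i₀ → ℚ_[2]} (hc : Coc χ c)
    (hodd : ∀ (p : ℕ) [Fact p.Prime] (ι : QB →ₐ[ℚ] PadicAlgCl p), p ≠ 2 → CobOn χ (II ι) c)
    (hstr : ∀ ι : QB →ₐ[ℚ] PadicAlgCl 2, ‖ι (em hi ϖ)‖ < 1 → CobOn χ (DD ι) c)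
    (hn : ¬ ∃ y : ℚ_[2], ∀ σ, c σ = (vl χ σ - 1) * y) :
    ∃ δ : OO, Sel5 m ϖ ϖ' δ ∧ δ ≠ 1 ∧ δ ≠ m := by
  refine core5 hi hT cd h2 (fun ι hι => ?_) (fun ι hι => ?_) hc hodd hstr hn
  · rw [← ι_em hi, ha'] at hι
    obtain ⟨⟨σ₀, h0, h1⟩, h3⟩ := hps.strict hi hι
    refine ⟨⟨σ₀, h0, norm_five (by rw [h8, h1])⟩, fun σ hσ => norm_one_le ?_⟩
    rw [h8, h3 σ hσ]
    simp
  · rw [← ι_em hi, ha] at hι
    obtain ⟨⟨σ₀, h0⟩, ζ, f, hζ, hf, hact⟩ := hps.relaxed hi hι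
    refine ⟨⟨σ₀, ?_⟩, ζ, f, hζ, hf, fun τ σ hc => ?_⟩
    · rcases sq_eq_sq_iff_eq_or_eq_neg.1 hqs with h1 | h1
      · rw [← h1, h0]
      · have h3 : s = -q := by rw [h1, neg_neg]
        rw [h3, map_neg, h0]
    · rw [h8]
      exact hact τ σ hc

end final

/-- **P5** -/
theorem t_P5 : S_P5 := by
  intro hT i₀ hi κ κ' D P r I kd k8 hD h8 hsf j ϖ ϖ' m hj c hc hodd hstr hn
  have hap : ∀ σ, (κ ^ j * κ' ^ (1 - j) : GK i₀ →* ℤ_[2]ˣ) σ = (κ σ) ^ j * (κ' σ) ^ (1 - j) :=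
    fun σ => rfl
  obtain ⟨m', s, hm, cd⟩ := chiD7 hi kd j
  have hom : em hi om = i₀ := em_om hi
  rcases hj with ⟨hj, h1, h2, h3⟩ | ⟨hj, h1, h2, h3⟩
  · have hm' : m' = m := by
      rcases hm with ⟨-, h⟩ | ⟨h, -⟩
      · rw [h, h3]
      · exact absurd hj (Int.not_even_iff_odd.2 h)
    subst hm'
    obtain ⟨k, hk⟩ := hj
    have hk' : j = 2 * k := by omega
    refine fin5 hi hT (ψ := κ') (fun σ => ?_) (ps' hi kd k8 hD h8) cd ?_ (Or.inl ⟨h1, h2⟩) ?_ ?_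
      hc hodd hstr hn
    · have e : 1 - 2 * k = 2 * (-k) + 1 := by ring
      rw [hap, hk', e, zpow_add, zpow_one, Units.val_mul, Units.val_mul, map_mul, map_mul, t8_even,
        t8_even, one_mul, one_mul]
    · rw [kd.hr, cd.hr, h3]
    · rw [h2, map_sub, map_one, hom]
    · rw [h1, hom, sub_sub_cancel]
  · have hm' : m' = m := by
      rcases hm with ⟨h, -⟩ | ⟨-, h⟩
      · exact absurd h (Int.not_even_iff_odd.2 hj)
      · rw [h, h3]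
    subst hm'
    obtain ⟨k, hk⟩ := hj
    refine fin5 hi hT (ψ := κ) (fun σ => ?_) (ps hi kd k8 hD h8) cd ?_ (Or.inr ⟨h1, h2⟩) ?_ ?_
      hc hodd hstr hn
    · have e : 1 - (2 * k + 1) = 2 * (-k) := by ring
      rw [hap, hk, e, zpow_add, zpow_one, Units.val_mul, Units.val_mul, map_mul, map_mul, t8_even,
        t8_even, mul_one, one_mul]
    · rw [mul_pow, kd.hI, kd.hr, cd.hr, h3, map_neg]
      ring
    · rw [h2, hom]
    · rw [h1, map_sub, map_one, hom]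

end Pool.Agent.L0h19.H1
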